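import Pool.Agent.R591.PL.Reals
import Pool.Agent.R591.BT.Stat

/-!
# A rigid `ℵ₁`-dense set of reals
-/

set_option autoImplicit false

open Set Filter Cardinal

namespace Pool.Agent.R591.PL

open Pool.Agent.R591.BT (W Cl W_Iio W_Iic W_bdd W_unc bound_fun exists_cl)

/-- `X ⊆ ℝ` is `ℵ₁`-dense. -/
def AlephOneDense (X : Set ℝ) : Prop :=
  ∀ U : Set ℝ, IsOpen U → U.Nonempty → #(X ∩ U : Set ℝ) = ℵ₁

/-- Every non-expansive bijection of `X ⊆ ℝ` onto itself is an isometry. -/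
def Plastic (X : Set ℝ) : Prop :=
  ∀ f : X → X, Function.Bijective f → (∀ x y, dist (f x) (f y) ≤ dist x y) → Isometry f

/-! ### a dense independent sequence -/

theorem exists_scale (v d ε : ℝ) (hv : v ≠ 0) (hε : 0 < ε) :
    ∃ l : ℚ, l ≠ 0 ∧ |(l : ℝ) * v - d| < ε := by
  have hv' : 0 < |v| := abs_pos.2 hv
  have key : ∀ l : ℚ, |(l : ℝ) - d / v| < ε / |v| → |(l : ℝ) * v - d| < ε := by
    intro l hl
    have h1 : (l : ℝ) * v - d = ((l : ℝ) - d / v) * v := by field_simp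
    rw [h1, abs_mul]
    rwa [lt_div_iff₀ hv'] at hl
  have hpos : 0 < ε / |v| := by positivity
  rcases le_or_gt 0 (d / v) with h | h
  · obtain ⟨l, h1, h2⟩ := exists_rat_btwn (show d / v < d / v + ε / |v| by linarith)
    refine ⟨l, ?_, key l ?_⟩
    · rintro rfl
      simp only [Rat.cast_zero] at h1
      linarith
    · rw [abs_lt]; constructor <;> linarith
  · obtain ⟨l, h1, h2⟩ := exists_rat_btwn (show d / v - ε / |v| < d / v by linarith)
    refine ⟨l, ?_, key l ?_⟩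
    · rintro rfl
      simp only [Rat.cast_zero] at h2
      linarith
    · rw [abs_lt]; constructor <;> linarith

theorem exists_dense_indep : ∃ w : ℕ × ℕ → ℝ, LinearIndependent ℚ w ∧ DenseRange w := by
  obtain ⟨s, hs, hli⟩ := (le_rank_iff_exists_linearIndependent (K := ℚ) (V := ℝ)
    (c := ℵ₀)).1 (by rw [Real.rank_rat_real]; exact aleph0_le_continuum)
  obtain ⟨e⟩ : Nonempty (ℕ × ℕ ≃ s) := by
    rw [← Cardinal.eq, hs]
    simp
  let v : ℕ × ℕ → ℝ := fun i => (e i : ℝ)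
  have hv : LinearIndependent ℚ v := by
    have h1 : LinearIndependent ℚ (fun x : s => (x : ℝ)) := hli
    exact h1.comp e e.injective
  have hv0 : ∀ i, v i ≠ 0 := fun i => hv.ne_zero i
  let d := TopologicalSpace.denseSeq ℝ
  choose l hl0 hl using fun i : ℕ × ℕ => exists_scale (v i) (d i.1) (1 / (i.2 + 1)) (hv0 i)
    (by positivity)
  refine ⟨fun i => (l i : ℝ) * v i, ?_, ?_⟩
  · have h1 := hv.units_smul (fun i => Units.mk0 (l i) (hl0 i))
    convert h1 using 1
    ext i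
    simp [Rat.smul_def]
  · rw [DenseRange, Metric.dense_iff]
    intro y r hr
    obtain ⟨m, hm⟩ := exists_nat_one_div_lt (show 0 < r / 2 by linarith)
    have hd : Dense (range d) := TopologicalSpace.denseRange_denseSeq ℝ
    obtain ⟨z, hz1, i, rfl⟩ := Metric.dense_iff.1 hd y (r / 2) (by linarith)
    refine ⟨(l (i, m) : ℝ) * v (i, m), ?_, ⟨(i, m), rfl⟩⟩
    have h1 := hl (i, m)
    rw [Metric.mem_ball, Real.dist_eq] at hz1 ⊢
    simp only at h1
    have h2 : (l (i, m) : ℝ) * v (i, m) - y =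
      ((l (i, m) : ℝ) * v (i, m) - d i) + (d i - y) := by ring
    rw [h2]
    refine (abs_add_le _ _).trans_lt ?_
    linarith

theorem sidon {κ : Type} {w : κ → ℝ} (hw : LinearIndependent ℚ w) {a b c d : κ}
    (h : w a + w b = w c + w d) : (a = c ∧ b = d) ∨ (a = d ∧ b = c) := by
  classical
  have h1 : (Finsupp.single a (1 : ℚ) + Finsupp.single b 1) =
      Finsupp.single c 1 + Finsupp.single d 1 := by
    apply (linearIndependent_iff_injective_finsuppLinearCombination.1 hw)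
    simpa using h
  rcases (Finsupp.single_add_single_eq_single_add_single (one_ne_zero) (one_ne_zero)).1 h1 with
    h2 | h2 | h2
  · exact Or.inl h2
  · exact Or.inr ⟨h2.2.1, h2.2.2⟩
  · norm_num at h2

/-- a set of reals generated by `x` and `w` -/
def XX (x : W → ℝ) {κ : Type} (w : κ → ℝ) : Set ℝ := {y | ∃ ξ a, y = x ξ + w a}

theorem XX_fiber {x : W → ℝ} (hx : Function.Injective x) {κ : Type} [Countable κ] (w : κ → ℝ)
    (y : ℝ) : {ξ : W | ∃ a, y = x ξ + w a}.Countable := by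
  have h : {ξ : W | ∃ a, y = x ξ + w a} ⊆ ⋃ a : κ, {ξ : W | y = x ξ + w a} := by
    rintro ξ ⟨a, ha⟩
    exact mem_iUnion.2 ⟨a, ha⟩
  refine (countable_iUnion fun a => ?_).mono h
  refine Set.Subsingleton.countable ?_
  intro ξ hξ η hη
  have h1 : y = x ξ + w a := hξ
  have h2 : y = x η + w a := hη
  exact hx (by linarith)

theorem XX_dense {x : W → ℝ} (hx : Function.Injective x) {κ : Type} [Countable κ] {w : κ → ℝ}
    (hw : DenseRange w) : AlephOneDense (XX x w) := by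
  intro U hU hUne
  apply le_antisymm
  · have h1 : XX x w ∩ U ⊆ range (fun z : W × κ => x z.1 + w z.2) := by
      rintro _ ⟨⟨ξ, a, rfl⟩, _⟩
      exact ⟨(ξ, a), rfl⟩
    calc #(XX x w ∩ U : Set ℝ) ≤ #(range (fun z : W × κ => x z.1 + w z.2)) := mk_le_mk_of_subset h1
      _ ≤ #(W × κ) := mk_range_le
      _ = #W * #κ := mk_prod W κ ▸ by simp
      _ ≤ ℵ₁ * ℵ₁ := by
          refine mul_le_mul' ?_ ?_
          · rw [Cardinal.mk_ord_toType]
          · exact (mk_le_aleph0 (α := κ)).trans aleph0_lt_aleph_one.le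
      _ = ℵ₁ := mul_eq_self aleph0_lt_aleph_one.le
  · rw [← succ_aleph0]
    apply Order.succ_le_of_lt
    by_contra hcon
    have hc : (XX x w ∩ U).Countable := by
      rw [not_lt] at hcon
      exact (le_aleph0_iff_set_countable).1 hcon
    apply W_unc
    have h1 : (Set.univ : Set W) ⊆ ⋃ y ∈ XX x w ∩ U, {ξ : W | ∃ a, y = x ξ + w a} := by
      intro ξ _
      obtain ⟨u, hu⟩ := hUne
      have hV : IsOpen {t : ℝ | x ξ + t ∈ U} := hU.preimage (continuous_const.add continuous_id)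
      obtain ⟨a, ha⟩ := hw.exists_mem_open hV ⟨u - x ξ, by
        show x ξ + (u - x ξ) ∈ U
        rwa [add_sub_cancel]⟩
      exact mem_iUnion₂.2 ⟨x ξ + w a, ⟨⟨ξ, a, rfl⟩, ha⟩, a, rfl⟩
    exact (hc.biUnion fun y _ => XX_fiber hx w y).mono h1

/-- Every non-expansive injection of the set into itself is the identity. -/
theorem XX_rigid {x : W → ℝ} {c : W → W → ℕ} (hx : Function.Injective x)
    (hstar : ∀ ξ η ξ' η', ξ < η → ξ' < η' → c ξ η = c ξ' η' → ¬ (ξ = ξ' ∧ η = η') →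
        |x ξ - x ξ'| < |x η - x η'|)
    {κ : Type} [Countable κ] {w : κ → ℝ} (hw : DenseRange w) (hwi : LinearIndependent ℚ w)
    (f : XX x w → XX x w) (hf : Function.Injective f) (hne : ∀ y z, dist (f y) (f z) ≤ dist y z) :
    ∀ y, f y = y := by
  classical
  -- the points of the set
  let pt : W → κ → XX x w := fun ξ a => ⟨x ξ + w a, ξ, a, rfl⟩
  have hpt : ∀ y : XX x w, ∃ ξ a, y = pt ξ a := by
    rintro ⟨y, ξ, a, h⟩
    exact ⟨ξ, a, Subtype.ext h⟩
  have hdist : ∀ y z : XX x w, |(f y : ℝ) - f z| ≤ |(y : ℝ) - z| := fun y z => hne y z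
  -- points whose image has a larger index
  let B : Set (XX x w) := {y | ∃ ξ a η b, y = pt ξ a ∧ f y = pt η b ∧ ξ < η}
  have hB : B.Countable := by
    have hex : ∀ y : B, ∃ z : W × κ × W × κ, y.1 = pt z.1 z.2.1 ∧ f y.1 = pt z.2.2.1 z.2.2.2 ∧
        z.1 < z.2.2.1 := by
      rintro ⟨y, ξ, a, η, b, h⟩
      exact ⟨(ξ, a, η, b), h⟩
    choose z hz using hex
    have hinj : Function.Injective (fun y : B => (c (z y).1 (z y).2.2.1, (z y).2.1, (z y).2.2.2)) := by
      intro y y' h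
      simp only [Prod.mk.injEq] at h
      obtain ⟨h1, h2, h3⟩ := h
      obtain ⟨e1, e2, e3⟩ := hz y
      obtain ⟨e1', e2', e3'⟩ := hz y'
      by_contra hcon
      have hne' : ¬ ((z y).1 = (z y').1 ∧ (z y).2.2.1 = (z y').2.2.1) := by
        rintro ⟨h4, _⟩
        apply hcon
        apply Subtype.ext
        rw [e1, e1', h4, h2]
      have h5 := hstar _ _ _ _ e3 e3' h1 hne'
      have h6 := hdist y.1 y'.1
      rw [e2, e2', e1, e1'] at h6
      simp only [pt] at h6
      rw [h2, h3] at h6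
      have h7 : x (z y).2.2.1 + w (z y').2.2.2 - (x (z y').2.2.1 + w (z y').2.2.2) =
        x (z y).2.2.1 - x (z y').2.2.1 := by ring
      have h8 : x (z y).1 + w (z y').2.1 - (x (z y').1 + w (z y').2.1) =
        x (z y).1 - x (z y').1 := by ring
      rw [h7, h8] at h6
      linarith
    exact Set.countable_coe_iff.1 hinj.countable
  -- a bound for the indices of these points
  obtain ⟨β, hβ⟩ : ∃ β : W, ∀ ξ, (∃ a, pt ξ a ∈ B) → ξ < β := by
    have hc : (⋃ y ∈ B, {ξ : W | ∃ a, (y : ℝ) = x ξ + w a}).Countable :=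
      hB.biUnion fun y _ => XX_fiber hx w _
    obtain ⟨β, hβ⟩ := W_bdd _ hc
    refine ⟨β, ?_⟩
    rintro ξ ⟨a, ha⟩
    exact hβ ξ (mem_iUnion₂.2 ⟨pt ξ a, ha, a, rfl⟩)
  -- the closure function
  have hcG : ∀ ξ : W, {η : W | ∃ a b, f (pt η a) = pt ξ b}.Countable := by
    intro ξ
    have h1 : {η : W | ∃ a b, f (pt η a) = pt ξ b} ⊆
        ⋃ a : κ, ⋃ b : κ, {η : W | f (pt η a) = pt ξ b} := by
      rintro η ⟨a, b, h⟩
      exact mem_iUnion.2 ⟨a, mem_iUnion.2 ⟨b, h⟩⟩
    refine (countable_iUnion fun a => countable_iUnion fun b => ?_).mono h1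
    refine Set.Subsingleton.countable ?_
    intro η hη η' hη'
    have h2 : pt η a = pt η' a := hf (hη.trans hη'.symm)
    have h3 : x η + w a = x η' + w a := congrArg Subtype.val h2
    exact hx (by linarith)
  choose G hG using fun ξ => W_bdd _ (hcG ξ)
  -- the indices which are preserved
  let D : Set W := {δ | β < δ ∧ Cl G δ}
  have hD : ∀ δ ∈ D, ∀ a, ∃ b, f (pt δ a) = pt δ b := by
    rintro δ ⟨hβδ, hδ⟩ a
    obtain ⟨η, b, hηb⟩ := hpt (f (pt δ a))
    rcases lt_trichotomy η δ with h | h | h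
    · have h1 := hG η δ ⟨a, b, hηb⟩
      exact absurd (h1.trans (hδ.2 η h)) (lt_irrefl _)
    · rw [h] at hηb
      exact ⟨b, hηb⟩
    · exact absurd (hβ δ ⟨a, δ, a, η, b, rfl, hηb, h⟩) (not_lt.2 hβδ.le)
  have hDunc : ¬ D.Countable := by
    intro hc
    obtain ⟨γ, hγ⟩ := W_bdd _ hc
    obtain ⟨δ, h1, h2⟩ := exists_cl G (max β γ)
    exact absurd (hγ δ ⟨(le_max_left _ _).trans_lt h1, h2⟩)
      (not_lt.2 ((le_max_right _ _).trans h1.le))
  -- fixed points in every interval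
  have hfix : ∀ u v : ℝ, u < v → ∃ y : XX x w, (y : ℝ) ∈ Ioo u v ∧ f y = y := by
    intro u v huv
    have hex : ∀ δ : D, ∃ z : κ × κ, x δ + w z.1 ∈ Ioo u v ∧ f (pt δ z.1) = pt δ z.2 := by
      rintro ⟨δ, hδ⟩
      have hV : IsOpen {t : ℝ | x δ + t ∈ Ioo u v} :=
        isOpen_Ioo.preimage (continuous_const.add continuous_id)
      obtain ⟨a, ha⟩ := hw.exists_mem_open hV ⟨(u + v) / 2 - x δ, by
        show x δ + ((u + v) / 2 - x δ) ∈ Ioo u v
        constructor <;> linarith⟩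
      obtain ⟨b, hb⟩ := hD δ hδ a
      exact ⟨(a, b), ha, hb⟩
    choose z hz using hex
    -- two indices of the same kind
    have hnotinj : ¬ Function.Injective z := by
      intro hinj
      exact hDunc (Set.countable_coe_iff.1 hinj.countable)
    simp only [Function.Injective, not_forall] at hnotinj
    obtain ⟨δ₁, δ₂, hz12, h12⟩ := hnotinj
    -- order them
    obtain ⟨δ, δ', hzz, hlt⟩ : ∃ δ δ' : D, z δ = z δ' ∧ x δ < x δ' := by
      have hne12 : x δ₁ ≠ x δ₂ := fun h => h12 (Subtype.ext (hx h))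
      rcases lt_or_gt_of_ne hne12 with h | h
      · exact ⟨δ₁, δ₂, hz12, h⟩
      · exact ⟨δ₂, δ₁, hz12.symm, h⟩
    obtain ⟨hm, hfm⟩ := hz δ
    obtain ⟨hm', hfm'⟩ := hz δ'
    rw [← hzz] at hm' hfm'
    -- a third point in between
    have hV : IsOpen {t : ℝ | x δ + t ∈ Ioo (x δ + w (z δ).1) (x δ' + w (z δ).1)} :=
      isOpen_Ioo.preimage (continuous_const.add continuous_id)
    obtain ⟨a', ha'⟩ := hw.exists_mem_open hV ⟨(x δ' - x δ) / 2 + w (z δ).1, by
        show x δ + ((x δ' - x δ) / 2 + w (z δ).1) ∈ Ioo _ _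
        constructor <;> linarith⟩
    have ha1 : x δ + w (z δ).1 < x δ + w a' := ha'.1
    have ha2 : x δ + w a' < x δ' + w (z δ).1 := ha'.2
    obtain ⟨b', hb'⟩ := hD δ δ.2 a'
    have hd1 := hdist (pt δ a') (pt δ (z δ).1)
    have hd2 := hdist (pt δ' (z δ).1) (pt δ a')
    rw [hfm, hb'] at hd1
    rw [hfm', hb'] at hd2
    simp only [pt] at hd1 hd2
    rw [abs_of_pos (show (0 : ℝ) < x δ + w a' - (x δ + w (z δ).1) by linarith), abs_le] at hd1
    rw [abs_of_pos (show (0 : ℝ) < x δ' + w (z δ).1 - (x δ + w a') by linarith), abs_le] at hd2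
    have heq : w b' + w (z δ).1 = w a' + w (z δ).2 := by linarith [hd1.1, hd1.2, hd2.1, hd2.2]
    rcases sidon hwi heq with ⟨_, h2⟩ | ⟨_, h2⟩
    · refine ⟨pt δ (z δ).1, hm, ?_⟩
      rw [hfm, ← h2]
    · rw [h2] at ha1
      exact absurd ha1 (lt_irrefl _)
  -- conclusion
  intro y
  by_contra hcon
  have hpos : 0 < |(f y : ℝ) - y| := by
    rw [abs_pos, sub_ne_zero]
    exact fun h => hcon (Subtype.ext h)
  obtain ⟨p, hp, hfp⟩ := hfix ((y : ℝ) - |(f y : ℝ) - y| / 3) ((y : ℝ) + |(f y : ℝ) - y| / 3)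
    (by linarith)
  have h1 := hdist y p
  rw [hfp] at h1
  have h2 : |(y : ℝ) - p| < |(f y : ℝ) - y| / 3 := by
    rw [abs_lt]
    constructor <;> linarith [hp.1, hp.2]
  have h3 : |(f y : ℝ) - y| ≤ |(f y : ℝ) - p| + |(p : ℝ) - y| := abs_sub_le _ _ _
  rw [abs_sub_comm (p : ℝ) y] at h3
  linarith

/-- There is a plastic `ℵ₁`-dense set of reals. -/
theorem exists_plastic : ∃ X : Set ℝ, AlephOneDense X ∧
    ∀ f : X → X, Function.Injective f → (∀ x y, dist (f x) (f y) ≤ dist x y) → ∀ x, f x = x := by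
  obtain ⟨x, c, hx, hstar⟩ := exists_star (ι := W) W_Iio
  obtain ⟨w, hwi, hw⟩ := exists_dense_indep
  exact ⟨XX x w, XX_dense hx hw, fun f hf hne => XX_rigid hx hstar hw hwi f hf hne⟩

end Pool.Agent.R591.PL
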