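import Pool.Agent.R591.PL.Rigid
import Pool.Agent.R591.BT.Defs

/-!
# Under PFA, dense subgroups of size `ℵ₁` are not plastic
-/

set_option autoImplicit false

open Set Filter Cardinal

namespace Pool.Agent.R591.PL

open Pool.Agent.R591.BT (W DenseSet IsFilter Proper)

/-- The Proper Forcing Axiom. -/
def PFA : Prop :=
  ∀ (P : Type) [PartialOrder P] [Nonempty P], Proper P →
    ∀ D : W → Set P, (∀ i, DenseSet (D i)) → ∃ G : Set P, IsFilter G ∧ ∀ i, (G ∩ D i).Nonempty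

/-- countable notions of forcing are proper -/
theorem proper_of_countable (P : Type) [PartialOrder P] [Countable P] : Proper P := by
  classical
  by_cases hP : Nonempty P
  · obtain ⟨e, he⟩ := exists_surjective_nat P
    refine ⟨fun l => Sum.inl (e l.length), ?_⟩
    intro M _ hM p hp
    have hall : ∀ q : P, Sum.inl q ∈ M := by
      intro q
      obtain ⟨n, rfl⟩ := he q
      have h1 := hM (List.replicate n (Sum.inl p)) (by
        intro a ha
        rw [List.eq_of_mem_replicate ha]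
        exact hp)
      simpa using h1
    refine ⟨p, le_rfl, ?_⟩
    intro D _ hD r _
    obtain ⟨d, hd, hdr⟩ := hD r
    exact ⟨d, hd, hall d, d, hdr, le_rfl⟩
  · refine ⟨fun _ => Sum.inr ∅, ?_⟩
    intro M _ _ p
    exact (hP ⟨p⟩).elim

section poset

variable (d : ℕ → ℝ)

/-- the piece `τ` (an interval and the value of the function on it) is on the left of `τ'` -/
def Lf (τ τ' : ℚ × ℚ × ℕ) : Prop :=
  τ.2.1 < τ'.1 ∧ d τ.2.2 < d τ'.2.2 ∧ 2 * (d τ'.2.2 - d τ.2.2) < (τ'.1 : ℝ) - τ.2.1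

/-- conditions -/
def Pc : Type := {s : Finset (ℚ × ℚ × ℕ) // (∀ τ ∈ s, τ.1 < τ.2.1) ∧
  ∀ τ ∈ s, ∀ τ' ∈ s, τ ≠ τ' → Lf d τ τ' ∨ Lf d τ' τ}

instance : PartialOrder (Pc d) where
  le s t := t.1 ⊆ s.1
  le_refl s := Finset.Subset.refl _
  le_trans _ _ _ h h' := h'.trans h
  le_antisymm s t h h' := Subtype.ext (Finset.Subset.antisymm h' h)

instance : Countable (Pc d) := inferInstanceAs (Countable {s : Finset (ℚ × ℚ × ℕ) // _})

instance : Nonempty (Pc d) := ⟨⟨∅, by simp, by simp⟩⟩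

end poset

variable {d : ℕ → ℝ}

theorem exists_btw (hd : DenseRange d) (lo hi : Finset ℝ) (h : ∀ x ∈ lo, ∀ y ∈ hi, x < y) :
    ∃ n, (∀ x ∈ lo, x < d n) ∧ ∀ y ∈ hi, d n < y := by
  classical
  obtain ⟨m, hm1, hm2⟩ := Order.exists_between_finsets lo hi h
  obtain ⟨m', hm1', hm2'⟩ := Order.exists_between_finsets (insert m lo) hi (by
    intro x hx y hy
    rcases Finset.mem_insert.1 hx with rfl | hx
    · exact hm2 y hy
    · exact h x hx y hy)
  obtain ⟨n, hn⟩ := hd.exists_mem_open (isOpen_Ioo (a := m) (b := m'))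
    (nonempty_Ioo.2 (hm1' m (Finset.mem_insert_self _ _)))
  exact ⟨n, fun x hx => (hm1 x hx).trans hn.1, fun y hy => hn.2.trans (hm2' y hy)⟩

theorem exists_rat_btw (lo hi : Finset ℝ) (h : ∀ x ∈ lo, ∀ y ∈ hi, x < y) :
    ∃ q : ℚ, (∀ x ∈ lo, x < q) ∧ ∀ y ∈ hi, (q : ℝ) < y := by
  obtain ⟨e, he⟩ := exists_surjective_nat ℚ
  have hd : DenseRange (fun n => (e n : ℝ)) := by
    have h1 : DenseRange ((↑) : ℚ → ℝ) := Rat.denseRange_cast
    exact h1.comp he.denseRange Rat.continuous_coe_real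
  obtain ⟨n, hn⟩ := exists_btw hd lo hi h
  exact ⟨e n, hn⟩

/-- adding a piece around the point `z` with the value `d n` -/
theorem add_piece (s : Pc d) (z : ℝ) (n : ℕ)
    (h : ∀ τ ∈ s.1, ((τ.2.1 : ℝ) < z ∧ d τ.2.2 < d n ∧ 2 * (d n - d τ.2.2) < z - τ.2.1) ∨
      (z < τ.1 ∧ d n < d τ.2.2 ∧ 2 * (d τ.2.2 - d n) < (τ.1 : ℝ) - z)) :
    ∃ t ≤ s, ∃ τ ∈ t.1, (τ.1 : ℝ) ≤ z ∧ z ≤ τ.2.1 ∧ τ.2.2 = n := by
  classical
  -- left endpoint
  let L := s.1.filter (fun τ => (τ.2.1 : ℝ) < z)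
  let R := s.1.filter (fun τ => ¬ (τ.2.1 : ℝ) < z)
  have hL : ∀ τ ∈ L, (τ.2.1 : ℝ) < z ∧ d τ.2.2 < d n ∧ 2 * (d n - d τ.2.2) < z - τ.2.1 := by
    intro τ hτ
    obtain ⟨h1, h2⟩ := Finset.mem_filter.1 hτ
    rcases h τ h1 with h3 | h3
    · exact h3
    · have h4 : (τ.1 : ℝ) < τ.2.1 := by exact_mod_cast s.2.1 τ h1
      linarith [h3.1]
  have hR : ∀ τ ∈ R, (z < τ.1 ∧ d n < d τ.2.2 ∧ 2 * (d τ.2.2 - d n) < (τ.1 : ℝ) - z) := by
    intro τ hτ
    obtain ⟨h1, h2⟩ := Finset.mem_filter.1 hτ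
    rcases h τ h1 with h3 | h3
    · exact absurd h3.1 h2
    · exact h3
  obtain ⟨a, ha1, ha2⟩ := exists_rat_btw
    (L.image (fun τ => (τ.2.1 : ℝ) + 2 * (d n - d τ.2.2))) {z} (by
      intro x hx y hy
      obtain ⟨τ, hτ, rfl⟩ := Finset.mem_image.1 hx
      rw [Finset.mem_singleton.1 hy]
      linarith [(hL τ hτ).2.2])
  obtain ⟨b, hb1, hb2⟩ := exists_rat_btw {z}
    (R.image (fun τ => (τ.1 : ℝ) - 2 * (d τ.2.2 - d n))) (by
      intro x hx y hy
      obtain ⟨τ, hτ, rfl⟩ := Finset.mem_image.1 hy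
      rw [Finset.mem_singleton.1 hx]
      linarith [(hR τ hτ).2.2])
  have haz : (a : ℝ) < z := ha2 z (Finset.mem_singleton_self _)
  have hzb : z < (b : ℝ) := hb1 z (Finset.mem_singleton_self _)
  have hcmp : ∀ τ ∈ s.1, Lf d τ (a, b, n) ∨ Lf d (a, b, n) τ := by
    intro τ hτ
    by_cases h1 : (τ.2.1 : ℝ) < z
    · left
      have hτL : τ ∈ L := Finset.mem_filter.2 ⟨hτ, h1⟩
      have h2 := ha1 _ (Finset.mem_image_of_mem _ hτL)
      have h3 := hL τ hτL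
      refine ⟨?_, h3.2.1, ?_⟩
      · have : (τ.2.1 : ℝ) < a := by linarith [h3.2.1]
        exact_mod_cast this
      · simp only
        linarith
    · right
      have hτR : τ ∈ R := Finset.mem_filter.2 ⟨hτ, h1⟩
      have h2 := hb2 _ (Finset.mem_image_of_mem _ hτR)
      have h3 := hR τ hτR
      refine ⟨?_, h3.2.1, ?_⟩
      · have : (b : ℝ) < τ.1 := by linarith [h3.2.1]
        exact_mod_cast this
      · simp only
        linarith
  refine ⟨⟨insert (a, b, n) s.1, ?_, ?_⟩, Finset.subset_insert _ _, (a, b, n),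
    Finset.mem_insert_self _ _, haz.le, hzb.le, rfl⟩
  · intro τ hτ
    rcases Finset.mem_insert.1 hτ with rfl | hτ
    · have : (a : ℝ) < b := haz.trans hzb
      exact_mod_cast this
    · exact s.2.1 τ hτ
  · intro τ hτ τ' hτ' hne
    rcases Finset.mem_insert.1 hτ with h1 | h1 <;> rcases Finset.mem_insert.1 hτ' with h2 | h2
    · exact absurd (h1.trans h2.symm) hne
    · rw [h1]; exact (hcmp τ' h2).symm
    · rw [h2]; exact hcmp τ h1
    · exact s.2.2 τ h1 τ' h2 hne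

/-- the function can be defined at `z` -/
theorem dense_dom (hd : DenseRange d) (s : Pc d) (z : ℝ) :
    ∃ t ≤ s, ∃ τ ∈ t.1, (τ.1 : ℝ) ≤ z ∧ z ≤ τ.2.1 := by
  classical
  by_cases hz : ∃ τ ∈ s.1, (τ.1 : ℝ) ≤ z ∧ z ≤ τ.2.1
  · exact ⟨s, le_rfl, hz⟩
  push Not at hz
  have hor : ∀ τ ∈ s.1, (τ.2.1 : ℝ) < z ∨ z < τ.1 := by
    intro τ hτ
    rcases lt_or_ge z τ.1 with h | h
    · exact Or.inr h
    · exact Or.inl (hz τ hτ h)
  let L := s.1.filter (fun τ => (τ.2.1 : ℝ) < z)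
  let R := s.1.filter (fun τ => z < (τ.1 : ℝ))
  have hlr : ∀ τ ∈ s.1, (τ.1 : ℝ) < τ.2.1 := fun τ hτ => by exact_mod_cast s.2.1 τ hτ
  have hLf : ∀ τ ∈ s.1, ∀ τ' ∈ s.1, τ ≠ τ' →
      ((τ.2.1 : ℝ) < τ'.1 ∧ d τ.2.2 < d τ'.2.2 ∧ 2 * (d τ'.2.2 - d τ.2.2) < (τ'.1 : ℝ) - τ.2.1) ∨
      ((τ'.2.1 : ℝ) < τ.1 ∧ d τ'.2.2 < d τ.2.2 ∧ 2 * (d τ.2.2 - d τ'.2.2) < (τ.1 : ℝ) - τ'.2.1) := by
    intro τ hτ τ' hτ' hne
    rcases s.2.2 τ hτ τ' hτ' hne with h | h
    · exact Or.inl ⟨by exact_mod_cast h.1, h.2⟩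
    · exact Or.inr ⟨by exact_mod_cast h.1, h.2⟩
  obtain ⟨n, hn1, hn2⟩ := exists_btw hd
    (L.image (fun τ => d τ.2.2) ∪ R.image (fun τ => d τ.2.2 - ((τ.1 : ℝ) - z) / 2))
    (L.image (fun τ => d τ.2.2 + (z - τ.2.1) / 2) ∪ R.image (fun τ => d τ.2.2)) (by
      intro x hx y hy
      rcases Finset.mem_union.1 hx with hx | hx <;> rcases Finset.mem_union.1 hy with hy | hy <;>
        obtain ⟨τ, hτ, rfl⟩ := Finset.mem_image.1 hx <;>
        obtain ⟨τ', hτ', rfl⟩ := Finset.mem_image.1 hy <;>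
        obtain ⟨h1, h2⟩ := Finset.mem_filter.1 hτ <;>
        obtain ⟨h1', h2'⟩ := Finset.mem_filter.1 hτ' <;>
        have e1 := hlr τ h1 <;> have e2 := hlr τ' h1' <;>
        by_cases hne : τ = τ'
      · subst hne; linarith
      · rcases hLf τ h1 τ' h1' hne with h | h <;> linarith [h.1, h.2.1, h.2.2]
      · subst hne; linarith
      · rcases hLf τ h1 τ' h1' hne with h | h <;> linarith [h.1, h.2.1, h.2.2]
      · subst hne; linarith
      · rcases hLf τ h1 τ' h1' hne with h | h <;> linarith [h.1, h.2.1, h.2.2]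
      · subst hne; linarith
      · rcases hLf τ h1 τ' h1' hne with h | h <;> linarith [h.1, h.2.1, h.2.2])
  obtain ⟨t, ht, τ, hτ, h1, h2, _⟩ := add_piece s z n (by
    intro τ hτ
    rcases hor τ hτ with h | h
    · left
      have hτL : τ ∈ L := Finset.mem_filter.2 ⟨hτ, h⟩
      have h1 := hn1 _ (Finset.mem_union_left _ (Finset.mem_image_of_mem _ hτL))
      have h2 := hn2 _ (Finset.mem_union_left _ (Finset.mem_image_of_mem _ hτL))
      exact ⟨h, h1, by linarith⟩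
    · right
      have hτR : τ ∈ R := Finset.mem_filter.2 ⟨hτ, h⟩
      have h1 := hn1 _ (Finset.mem_union_right _ (Finset.mem_image_of_mem _ hτR))
      have h2 := hn2 _ (Finset.mem_union_right _ (Finset.mem_image_of_mem _ hτR))
      exact ⟨h, h2, by linarith⟩)
  exact ⟨t, ht, τ, hτ, h1, h2⟩

/-- `y` can be made a value -/
theorem dense_ran (hd : DenseRange d) (s : Pc d) (y : ℝ) :
    ∃ t ≤ s, ∃ τ ∈ t.1, (τ.1 : ℝ) ≤ y + d τ.2.2 ∧ y + d τ.2.2 ≤ τ.2.1 := by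
  classical
  by_cases hz : ∃ τ ∈ s.1, (τ.1 : ℝ) ≤ y + d τ.2.2 ∧ y + d τ.2.2 ≤ τ.2.1
  · exact ⟨s, le_rfl, hz⟩
  push Not at hz
  have hor : ∀ τ ∈ s.1, (τ.2.1 : ℝ) < y + d τ.2.2 ∨ y + d τ.2.2 < τ.1 := by
    intro τ hτ
    rcases lt_or_ge (y + d τ.2.2) τ.1 with h | h
    · exact Or.inr h
    · exact Or.inl (hz τ hτ h)
  let L := s.1.filter (fun τ => (τ.2.1 : ℝ) < y + d τ.2.2)
  let R := s.1.filter (fun τ => y + d τ.2.2 < (τ.1 : ℝ))
  have hlr : ∀ τ ∈ s.1, (τ.1 : ℝ) < τ.2.1 := fun τ hτ => by exact_mod_cast s.2.1 τ hτ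
  have hLf : ∀ τ ∈ s.1, ∀ τ' ∈ s.1, τ ≠ τ' →
      ((τ.2.1 : ℝ) < τ'.1 ∧ d τ.2.2 < d τ'.2.2 ∧ 2 * (d τ'.2.2 - d τ.2.2) < (τ'.1 : ℝ) - τ.2.1) ∨
      ((τ'.2.1 : ℝ) < τ.1 ∧ d τ'.2.2 < d τ.2.2 ∧ 2 * (d τ.2.2 - d τ'.2.2) < (τ.1 : ℝ) - τ'.2.1) := by
    intro τ hτ τ' hτ' hne
    rcases s.2.2 τ hτ τ' hτ' hne with h | h
    · exact Or.inl ⟨by exact_mod_cast h.1, h.2⟩
    · exact Or.inr ⟨by exact_mod_cast h.1, h.2⟩
  obtain ⟨n, hn1, hn2⟩ := exists_btw hd
    (L.image (fun τ => d τ.2.2) ∪ R.image (fun τ => 2 * d τ.2.2 - τ.1 + y))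
    (L.image (fun τ => y + 2 * d τ.2.2 - τ.2.1) ∪ R.image (fun τ => d τ.2.2)) (by
      intro x hx u hu
      rcases Finset.mem_union.1 hx with hx | hx <;> rcases Finset.mem_union.1 hu with hu | hu <;>
        obtain ⟨τ, hτ, rfl⟩ := Finset.mem_image.1 hx <;>
        obtain ⟨τ', hτ', rfl⟩ := Finset.mem_image.1 hu <;>
        obtain ⟨h1, h2⟩ := Finset.mem_filter.1 hτ <;>
        obtain ⟨h1', h2'⟩ := Finset.mem_filter.1 hτ' <;>
        have e1 := hlr τ h1 <;> have e2 := hlr τ' h1' <;>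
        by_cases hne : τ = τ'
      · subst hne; linarith
      · rcases hLf τ h1 τ' h1' hne with h | h <;> linarith [h.1, h.2.1, h.2.2]
      · subst hne; linarith
      · rcases hLf τ h1 τ' h1' hne with h | h <;> linarith [h.1, h.2.1, h.2.2]
      · subst hne; linarith
      · rcases hLf τ h1 τ' h1' hne with h | h <;> linarith [h.1, h.2.1, h.2.2]
      · subst hne; linarith
      · rcases hLf τ h1 τ' h1' hne with h | h <;> linarith [h.1, h.2.1, h.2.2])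
  obtain ⟨t, ht, τ, hτ, h1, h2, h3⟩ := add_piece s (y + d n) n (by
    intro τ hτ
    rcases hor τ hτ with h | h
    · left
      have hτL : τ ∈ L := Finset.mem_filter.2 ⟨hτ, h⟩
      have h1 := hn1 _ (Finset.mem_union_left _ (Finset.mem_image_of_mem _ hτL))
      have h2 := hn2 _ (Finset.mem_union_left _ (Finset.mem_image_of_mem _ hτL))
      exact ⟨by linarith, h1, by linarith⟩
    · right
      have hτR : τ ∈ R := Finset.mem_filter.2 ⟨hτ, h⟩
      have h1 := hn1 _ (Finset.mem_union_right _ (Finset.mem_image_of_mem _ hτR))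
      have h2 := hn2 _ (Finset.mem_union_right _ (Finset.mem_image_of_mem _ hτR))
      exact ⟨by linarith, h2, by linarith⟩)
  exact ⟨t, ht, τ, hτ, by rw [h3]; exact h1, by rw [h3]; exact h2⟩

/-- A dense subgroup of size `ℵ₁` is not plastic. -/
theorem not_plastic_of_PFA (hPFA : PFA) (H : AddSubgroup ℝ) (hH : AlephOneDense (H : Set ℝ)) :
    ¬ Plastic (H : Set ℝ) := by
  classical
  -- a countable dense subset of `H`
  have hHd : Dense (H : Set ℝ) := by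
    rw [dense_iff_inter_open]
    intro U hU hne
    by_contra hcon
    have h1 := hH U hU hne
    rw [not_nonempty_iff_eq_empty, inter_comm] at hcon
    rw [hcon] at h1
    have h2 : (0 : Cardinal) = ℵ₁ := by simpa using h1
    exact (Cardinal.aleph_pos 1).ne h2
  obtain ⟨d, hd, hdH⟩ : ∃ d : ℕ → ℝ, DenseRange d ∧ ∀ n, d n ∈ H := by
    obtain ⟨t, hts, htc, htd⟩ := hHd.exists_countable_dense_subset
    have hne : t.Nonempty := htd.nonempty
    obtain ⟨d, hd⟩ := htc.exists_eq_range hne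
    refine ⟨d, by rw [DenseRange, ← hd]; exact htd, fun n => hts ?_⟩
    rw [hd]; exact ⟨n, rfl⟩
  -- an enumeration of `H`
  obtain ⟨e, he⟩ : ∃ e : W → H, Function.Surjective e := by
    have h1 : #H = #W := by
      have h2 := hH Set.univ isOpen_univ univ_nonempty
      rw [inter_univ] at h2
      rw [Cardinal.mk_ord_toType]
      exact h2
    obtain ⟨f⟩ := Cardinal.eq.1 h1.symm
    exact ⟨f, f.surjective⟩
  obtain ⟨G, hG, hGD⟩ := hPFA (Pc d) (proper_of_countable _)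
    (fun i => {s | (∃ τ ∈ s.1, (τ.1 : ℝ) ≤ e i ∧ (e i : ℝ) ≤ τ.2.1) ∧
      ∃ τ ∈ s.1, (τ.1 : ℝ) ≤ e i + d τ.2.2 ∧ (e i : ℝ) + d τ.2.2 ≤ τ.2.1}) (by
    intro i s
    obtain ⟨t, ht, τ, hτ, h1⟩ := dense_dom hd s (e i)
    obtain ⟨t', ht', τ', hτ', h2⟩ := dense_ran hd t (e i)
    exact ⟨t', ⟨⟨τ, ht' hτ, h1⟩, τ', hτ', h2⟩, ht'.trans ht⟩)
  -- the generic pieces
  let 𝒯 : Set (ℚ × ℚ × ℕ) := {τ | ∃ s ∈ G, τ ∈ s.1}
  have hcmp : ∀ τ ∈ 𝒯, ∀ τ' ∈ 𝒯, τ ≠ τ' → Lf d τ τ' ∨ Lf d τ' τ := by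
    rintro τ ⟨s, hs, hτ⟩ τ' ⟨s', hs', hτ'⟩ hne
    obtain ⟨r, _, hr, hr'⟩ := hG.directed s hs s' hs'
    exact r.2.2 τ (hr hτ) τ' (hr' hτ') hne
  have hdom : ∀ z : H, ∃ τ ∈ 𝒯, (τ.1 : ℝ) ≤ z ∧ (z : ℝ) ≤ τ.2.1 := by
    intro z
    obtain ⟨i, rfl⟩ := he z
    obtain ⟨s, hs, ⟨τ, hτ, h⟩, _⟩ := hGD i
    exact ⟨τ, ⟨s, hs, hτ⟩, h⟩
  have hran : ∀ y : H, ∃ τ ∈ 𝒯, (τ.1 : ℝ) ≤ y + d τ.2.2 ∧ (y : ℝ) + d τ.2.2 ≤ τ.2.1 := by
    intro z
    obtain ⟨i, rfl⟩ := he z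
    obtain ⟨s, hs, _, τ, hτ, h⟩ := hGD i
    exact ⟨τ, ⟨s, hs, hτ⟩, h⟩
  choose T hT hT1 hT2 using hdom
  let f : H → H := fun z => ⟨z - d (T z).2.2, H.sub_mem z.2 (hdH _)⟩
  have hfval : ∀ z : H, (f z : ℝ) = z - d (T z).2.2 := fun _ => rfl
  -- comparison of the values at two points
  have hmono : ∀ z z' : H, (z : ℝ) < z' → 0 < (f z' : ℝ) - f z ∧ (f z' : ℝ) - f z ≤ z' - z ∧
      (T z ≠ T z' → (f z' : ℝ) - f z < z' - z) := by
    intro z z' hzz
    rw [hfval, hfval]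
    by_cases hne : T z = T z'
    · rw [hne]
      exact ⟨by linarith, by linarith, fun h => absurd rfl h⟩
    · have h1 := hT1 z
      have h2 := hT2 z
      have h1' := hT1 z'
      have h2' := hT2 z'
      rcases hcmp _ (hT z) _ (hT z') hne with h | h
      · obtain ⟨h3, h4, h5⟩ := h
        exact ⟨by linarith, by linarith, fun _ => by linarith⟩
      · exfalso
        have h3 : ((T z').2.1 : ℝ) < (T z).1 := by exact_mod_cast h.1
        linarith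
  have hdist : ∀ z z' : H, dist (f z) (f z') ≤ dist z z' := by
    intro z z'
    show |(f z : ℝ) - f z'| ≤ |(z : ℝ) - z'|
    rcases lt_trichotomy (z : ℝ) z' with h | h | h
    · obtain ⟨h1, h2, _⟩ := hmono z z' h
      rw [abs_sub_comm, abs_of_pos h1, abs_sub_comm, abs_of_pos (by linarith)]
      exact h2
    · have : z = z' := Subtype.ext h
      rw [this]
      simp
    · obtain ⟨h1, h2, _⟩ := hmono z' z h
      rw [abs_of_pos h1, abs_of_pos (by linarith)]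
      exact h2
  have hbij : Function.Bijective f := by
    constructor
    · intro z z' h
      rcases lt_trichotomy (z : ℝ) z' with h1 | h1 | h1
      · have h2 := (hmono z z' h1).1
        rw [h] at h2
        linarith
      · exact Subtype.ext h1
      · have h2 := (hmono z' z h1).1
        rw [h] at h2
        linarith
    · intro y
      obtain ⟨τ, hτ, h1, h2⟩ := hran y
      refine ⟨⟨y + d τ.2.2, H.add_mem y.2 (hdH _)⟩, ?_⟩
      apply Subtype.ext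
      rw [hfval]
      set z : H := ⟨y + d τ.2.2, H.add_mem y.2 (hdH _)⟩ with hz
      have hzv : (z : ℝ) = y + d τ.2.2 := rfl
      have h1' := hT1 z
      have h2' := hT2 z
      by_cases hne : T z = τ
      · rw [hne, hzv]; ring
      · exfalso
        rcases hcmp _ (hT z) _ hτ hne with h | h
        · have h3 : ((T z).2.1 : ℝ) < τ.1 := by exact_mod_cast h.1
          rw [hzv] at h1' h2'
          linarith
        · have h3 : (τ.2.1 : ℝ) < (T z).1 := by exact_mod_cast h.1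
          rw [hzv] at h1' h2'
          linarith
  intro hpl
  have hiso := hpl f hbij hdist
  -- two points in different pieces
  obtain ⟨z', hz'⟩ : ∃ z' : H, ((T 0).2.1 : ℝ) < z' := by
    obtain ⟨n, hn⟩ := hd.exists_mem_open (isOpen_Ioi (a := ((T 0).2.1 : ℝ)))
      ⟨((T 0).2.1 : ℝ) + 1, by simp⟩
    exact ⟨⟨d n, hdH n⟩, hn⟩
  have h0 : ((0 : H) : ℝ) < z' := (hT2 0).trans_lt hz'
  have hne : T 0 ≠ T z' := by
    intro h
    have := hT2 z'
    rw [← h] at this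
    linarith
  obtain ⟨h1, _, h3⟩ := hmono 0 z' h0
  have h4 := hiso.dist_eq 0 z'
  have h5 : |(f 0 : ℝ) - f z'| = |((0 : H) : ℝ) - z'| := h4
  rw [abs_sub_comm, abs_of_pos h1, abs_sub_comm, abs_of_pos (by linarith)] at h5
  linarith [h3 hne]

end Pool.Agent.R591.PL
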