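import Pool.Agent.R591.PL.Star

/-!
# The real numbers given by the codes
-/

set_option autoImplicit false

open Set Filter

namespace Pool.Agent.R591.PL

/-- bound for the `k`-th codes -/
def Mx (k : ℕ) : ℕ := Bd k (k + 1)

theorem two_le_Mx (k : ℕ) : 2 ≤ Mx k := two_le_Bd _ _

noncomputable def ep : ℕ → ℝ
  | 0 => 1
  | k + 1 => ep k / (8 * Mx (k + 1))

theorem ep_pos (k : ℕ) : 0 < ep k := by
  induction k with
  | zero => exact one_pos
  | succ k ih =>
    have h : (0 : ℝ) < Mx (k + 1) := by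
      have := two_le_Mx (k + 1)
      positivity
    simp only [ep]
    positivity

theorem ep_succ_mul (k : ℕ) : (Mx (k + 1) : ℝ) * ep (k + 1) = ep k / 8 := by
  have h : (0 : ℝ) < Mx (k + 1) := by
    have := two_le_Mx (k + 1)
    positivity
  simp only [ep]
  field_simp

theorem ep_succ_le (k : ℕ) : ep (k + 1) ≤ ep k / 2 := by
  have h1 := ep_succ_mul k
  have h2 : (2 : ℝ) ≤ Mx (k + 1) := by exact_mod_cast two_le_Mx (k + 1)
  have h3 := ep_pos (k + 1)
  have h4 := ep_pos k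
  nlinarith

theorem ep_add_le (k j : ℕ) : ep (j + k) ≤ ep k * (1 / 2) ^ j := by
  induction j with
  | zero => simp
  | succ j ih =>
    have h1 := ep_succ_le (j + k)
    have h2 : j + 1 + k = j + k + 1 := by ring
    rw [h2, pow_succ]
    linarith

/-- the real number coded by `a` -/
noncomputable def rl (a : ℕ → ℕ) : ℝ := ∑' k, (a k : ℝ) * ep k

theorem tail_bound {a : ℕ → ℕ} (ha : ∀ k, a k ≤ Mx k) (k j : ℕ) :
    0 ≤ (a (j + (k + 1)) : ℝ) * ep (j + (k + 1)) ∧
      (a (j + (k + 1)) : ℝ) * ep (j + (k + 1)) ≤ ep k / 8 * (1 / 2) ^ j := by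
  have h0 := ep_pos (j + (k + 1))
  refine ⟨by positivity, ?_⟩
  have h1 : (a (j + (k + 1)) : ℝ) ≤ Mx (j + k + 1) := by exact_mod_cast ha (j + (k + 1))
  have h2 := ep_succ_mul (j + k)
  have h3 := ep_add_le k j
  have h4 : j + (k + 1) = j + k + 1 := by ring
  rw [h4] at h0 ⊢
  rw [h4] at h1
  calc (a (j + k + 1) : ℝ) * ep (j + k + 1) ≤ (Mx (j + k + 1) : ℝ) * ep (j + k + 1) :=
        mul_le_mul_of_nonneg_right h1 h0.le
    _ = ep (j + k) / 8 := h2
    _ ≤ ep k / 8 * (1 / 2) ^ j := by linarith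

theorem summable_tail {a : ℕ → ℕ} (ha : ∀ k, a k ≤ Mx k) (k : ℕ) :
    Summable (fun j => (a (j + (k + 1)) : ℝ) * ep (j + (k + 1))) := by
  refine Summable.of_nonneg_of_le (fun j => (tail_bound ha k j).1)
    (fun j => (tail_bound ha k j).2) ?_
  exact (summable_geometric_of_lt_one (by norm_num) (by norm_num)).mul_left _

theorem summable_rl {a : ℕ → ℕ} (ha : ∀ k, a k ≤ Mx k) :
    Summable (fun k => (a k : ℝ) * ep k) :=
  (summable_nat_add_iff (f := fun k => (a k : ℝ) * ep k) 1).1 (summable_tail ha 0)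

/-- the tails -/
noncomputable def tl (a : ℕ → ℕ) (k : ℕ) : ℝ := ∑' j, (a (j + (k + 1)) : ℝ) * ep (j + (k + 1))

theorem tl_bounds {a : ℕ → ℕ} (ha : ∀ k, a k ≤ Mx k) (k : ℕ) :
    0 ≤ tl a k ∧ tl a k ≤ ep k / 4 := by
  refine ⟨tsum_nonneg fun j => (tail_bound ha k j).1, ?_⟩
  have h1 : tl a k ≤ ∑' j : ℕ, ep k / 8 * (1 / 2 : ℝ) ^ j :=
    Summable.tsum_le_tsum (fun j => (tail_bound ha k j).2) (summable_tail ha k)
      ((summable_geometric_of_lt_one (by norm_num) (by norm_num)).mul_left _)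
  rw [tsum_mul_left, tsum_geometric_of_lt_one (by norm_num) (by norm_num)] at h1
  linarith

theorem rl_eq {a : ℕ → ℕ} (ha : ∀ k, a k ≤ Mx k) (k : ℕ) :
    rl a = ∑ i ∈ Finset.range k, (a i : ℝ) * ep i + a k * ep k + tl a k := by
  rw [← Finset.sum_range_succ]
  exact ((summable_rl ha).sum_add_tsum_nat_add (k + 1)).symm

theorem rl_compare {a a' : ℕ → ℕ} (ha : ∀ k, a k ≤ Mx k) (ha' : ∀ k, a' k ≤ Mx k) (k : ℕ)
    (h : ∀ i < k, a i = a' i) :
    |rl a - rl a'| ≤ ep k * (|(a k : ℝ) - a' k| + 1 / 4) ∧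
      ep k * (|(a k : ℝ) - a' k| - 1 / 4) ≤ |rl a - rl a'| := by
  have h1 : ∑ i ∈ Finset.range k, (a i : ℝ) * ep i = ∑ i ∈ Finset.range k, (a' i : ℝ) * ep i := by
    refine Finset.sum_congr rfl fun i hi => ?_
    rw [h i (Finset.mem_range.1 hi)]
  have h2 : rl a - rl a' = ((a k : ℝ) - a' k) * ep k + (tl a k - tl a' k) := by
    rw [rl_eq ha k, rl_eq ha' k, h1]; ring
  have h3 := tl_bounds ha k
  have h4 := tl_bounds ha' k
  have h5 : |tl a k - tl a' k| ≤ ep k / 4 := by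
    rw [abs_le]; constructor <;> linarith
  have h6 : |((a k : ℝ) - a' k) * ep k| = ep k * |(a k : ℝ) - a' k| := by
    rw [abs_mul, abs_of_pos (ep_pos k), mul_comm]
  have h7 := abs_add_le (((a k : ℝ) - a' k) * ep k) (tl a k - tl a' k)
  have h8 := abs_sub_abs_le_abs_sub (((a k : ℝ) - a' k) * ep k) (-(tl a k - tl a' k))
  rw [abs_neg, sub_neg_eq_add] at h8
  rw [h2]
  constructor <;> nlinarith

variable {ι : Type} [LinearOrder ι] [WellFoundedLT ι]

/-- There are distinct reals `x η`, such that the set of the pairs `ξ < η` is the union of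
countably many pieces, and in each piece `x η ↦ x ξ` is a contraction. -/
theorem exists_star (hc : ∀ η : ι, (Iio η).Countable) :
    ∃ (x : ι → ℝ) (c : ι → ι → ℕ), Function.Injective x ∧
      ∀ ξ η ξ' η', ξ < η → ξ' < η' → c ξ η = c ξ' η' → ¬ (ξ = ξ' ∧ η = η') →
        |x ξ - x ξ'| < |x η - x η'| := by
  classical
  have he : ∀ η : ι, ∃ e : ι → ℕ, InjOn e (Iio η) := fun η =>
    Set.countable_iff_exists_injOn.1 (hc η)
  choose e he using he
  obtain ⟨ρ, hρ1, hρ2⟩ := exists_rho hc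
  let a : ι → ℕ → ℕ := fun η k => A e ρ k η
  have ha : ∀ η k, a η k ≤ Mx k := fun η k =>
    ((A_bounds e ρ k η).2.2).le.trans (Bd_mono k (Nat.succ_le_succ (hρ1 η k)))
  have hlt : ∀ ξ η k, ρ ξ k < ρ η k → a ξ k < a η k := by
    intro ξ η k h
    have h1 := (A_bounds e ρ k ξ).2.2
    have h2 := (A_bounds e ρ k η).2.1
    have h3 : Bd k (ρ ξ k + 1) ≤ Bd k (ρ η k) := Bd_mono k h
    show A e ρ k ξ < A e ρ k η
    omega
  have hne : ∀ ξ η, ξ ≠ η → ∃ k, a ξ k ≠ a η k := by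
    have : ∀ ξ η, ξ < η → ∃ k, a ξ k ≠ a η k := by
      intro ξ η h
      obtain ⟨k, hk⟩ := (hρ2 ξ η h).exists
      exact ⟨k, (hlt ξ η k hk).ne⟩
    intro ξ η h
    rcases lt_or_gt_of_ne h with h1 | h1
    · exact this ξ η h1
    · obtain ⟨k, hk⟩ := this η ξ h1
      exact ⟨k, hk.symm⟩
  let x : ι → ℝ := fun η => rl (a η)
  have hN : ∀ ξ η, ∃ N, ξ < η → e η ξ ≤ N ∧ ∀ k ≥ N, ρ ξ k < ρ η k := by
    intro ξ η
    by_cases h : ξ < η
    · obtain ⟨N, hN⟩ := eventually_atTop.1 (hρ2 ξ η h)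
      exact ⟨max N (e η ξ), fun _ => ⟨le_max_right _ _, fun k hk => hN k ((le_max_left _ _).trans hk)⟩⟩
    · exact ⟨0, fun h' => absurd h' h⟩
  choose N hN using hN
  let c : ι → ι → ℕ := fun ξ η => Encodable.encode
    ((e η ξ, N ξ η, (List.range (N ξ η)).map (a ξ), (List.range (N ξ η)).map (a η)) :
      ℕ × ℕ × List ℕ × List ℕ)
  refine ⟨x, c, ?_, ?_⟩
  · intro ξ η h
    by_contra hcon
    have hex := hne ξ η hcon
    have h1 := (rl_compare (ha ξ) (ha η) (Nat.find hex)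
      (fun i hi => not_not.1 (Nat.find_min hex hi))).2
    have h2 := Nat.find_spec hex
    have h3 : rl (a ξ) - rl (a η) = 0 := sub_eq_zero.2 h
    rw [h3, abs_zero] at h1
    have h4 : (1 : ℝ) ≤ |(a ξ (Nat.find hex) : ℝ) - a η (Nat.find hex)| := by
      have h5 : (1 : ℤ) ≤ |(a ξ (Nat.find hex) : ℤ) - a η (Nat.find hex)| := by
        apply Int.one_le_abs
        intro h6
        apply h2
        omega
      exact_mod_cast h5
    have h5 := ep_pos (Nat.find hex)
    nlinarith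
  · intro ξ η ξ' η' hξη hξη' hcc hne'
    have h1 := Encodable.encode_injective hcc
    simp only [Prod.mk.injEq] at h1
    obtain ⟨hn, hNN, hs, ht⟩ := h1
    rw [← hNN] at hs ht
    have hηη : η ≠ η' := by
      rintro rfl
      exact hne' ⟨he η hξη hξη' hn, rfl⟩
    have hs' : ∀ i < N ξ η, a ξ i = a ξ' i := fun i hi =>
      List.map_inj_left.1 hs i (List.mem_range.2 hi)
    have ht' : ∀ i < N ξ η, a η i = a η' i := fun i hi =>
      List.map_inj_left.1 ht i (List.mem_range.2 hi)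
    have hex := hne η η' hηη
    set k := Nat.find hex with hk
    have hkspec : a η k ≠ a η' k := Nat.find_spec hex
    have hkmin : ∀ i < k, a η i = a η' i := fun i hi => not_not.1 (Nat.find_min hex hi)
    have hNk : N ξ η ≤ k := by
      by_contra hcon
      exact hkspec (ht' k (not_le.1 hcon))
    have hNξ := hN ξ η hξη
    have hNξ' := hN ξ' η' hξη'
    rw [← hNN] at hNξ'
    have hcmp : ∀ i, N ξ η ≤ i → (a η i = a η' i → a ξ i = a ξ' i) ∧
        (a η i ≠ a η' i → 3 * (|(a ξ i : ℤ) - a ξ' i| + 1) ≤ |(a η i : ℤ) - a η' i|) := fun i hi =>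
      A_compare he ρ i hξη hξη' (hNξ.2 i hi) (hNξ'.2 i hi) hn (hNξ.1.trans hi)
    have hag : ∀ i < k, a ξ i = a ξ' i := by
      intro i hi
      rcases lt_or_ge i (N ξ η) with h2 | h2
      · exact hs' i h2
      · exact (hcmp i h2).1 (hkmin i hi)
    have h3 := (hcmp k hNk).2 hkspec
    have h4 : 3 * (|(a ξ k : ℝ) - a ξ' k| + 1) ≤ |(a η k : ℝ) - a η' k| := by exact_mod_cast h3
    have h5 := (rl_compare (ha ξ) (ha ξ') k hag).1
    have h6 := (rl_compare (ha η) (ha η') k hkmin).2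
    have h7 := ep_pos k
    have h8 := abs_nonneg ((a ξ k : ℝ) - a ξ' k)
    show |rl (a ξ) - rl (a ξ')| < |rl (a η) - rl (a η')|
    nlinarith

end Pool.Agent.R591.PL
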