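import Mathlib

/-!
# Reals `x η` (`η < ω₁`) such that the pairs `(x ξ, x η)`, `ξ < η`, are covered by countably many
graphs of contractions from `x η` to `x ξ`
-/

set_option autoImplicit false

open Set Filter

namespace Pool.Agent.R591.PL

/-! ### an increasing sequence of functions -/

def Gd (f : ℕ → ℕ) : Prop := ∀ m, ∀ᶠ k in atTop, f k + m ≤ k

theorem step_rho (f : ℕ → ℕ → ℕ) (hf : ∀ i, Gd (f i)) :
    ∃ g, Gd g ∧ (∀ k, g k ≤ k) ∧ ∀ i, ∀ᶠ k in atTop, f i k < g k := by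
  have h1 : ∀ m, ∃ K, ∀ k ≥ K, ∀ i ≤ m, f i k + (m + 1) ≤ k := by
    intro m
    have : ∀ᶠ k in atTop, ∀ i ∈ Finset.range (m + 1), f i k + (m + 1) ≤ k := by
      rw [Filter.eventually_all_finset]
      intro i _
      exact hf i (m + 1)
    obtain ⟨K, hK⟩ := eventually_atTop.1 this
    exact ⟨K, fun k hk i hi => hK k hk i (Finset.mem_range.2 (Nat.lt_succ_of_le hi))⟩
  choose K hK using h1
  classical
  let μ : ℕ → ℕ := fun k => Nat.findGreatest (fun m => K m ≤ k) k
  have hμ : ∀ m, ∀ᶠ k in atTop, m ≤ μ k := by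
    intro m
    filter_upwards [eventually_ge_atTop (max (K m) m)] with k hk
    exact Nat.le_findGreatest ((le_max_right _ _).trans hk) ((le_max_left _ _).trans hk)
  have hμK : ∀ k, K 0 ≤ k → K (μ k) ≤ k := by
    intro k hk
    exact Nat.findGreatest_spec (P := fun m => K m ≤ k) (Nat.zero_le k) hk
  let g : ℕ → ℕ := fun k =>
    if K 0 ≤ k then (Finset.range (μ k + 1)).sup (fun i => f i k + 1) else 0
  have hg : ∀ k, K 0 ≤ k → g k + μ k ≤ k := by
    intro k hk
    have h2 : g k ≤ k - μ k := by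
      simp only [g, if_pos hk]
      refine Finset.sup_le ?_
      intro i hi
      have h3 := hK (μ k) k (hμK k hk) i (Nat.lt_succ_iff.1 (Finset.mem_range.1 hi))
      omega
    have h3 := hK (μ k) k (hμK k hk) 0 (Nat.zero_le _)
    omega
  refine ⟨g, ?_, ?_, ?_⟩
  · intro m
    filter_upwards [hμ m, eventually_ge_atTop (K 0)] with k h2 h3
    have := hg k h3
    omega
  · intro k
    by_cases hk : K 0 ≤ k
    · have := hg k hk
      omega
    · simp only [g, if_neg hk]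
      exact Nat.zero_le _
  · intro i
    filter_upwards [hμ i, eventually_ge_atTop (K 0)] with k h2 h3
    simp only [g, if_pos h3]
    have h4 : f i k + 1 ≤ (Finset.range (μ k + 1)).sup (fun i => f i k + 1) :=
      Finset.le_sup (f := fun i => f i k + 1) (Finset.mem_range.2 (Nat.lt_succ_of_le h2))
    omega

variable {ι : Type} [LinearOrder ι] [WellFoundedLT ι]

theorem exists_rho (hc : ∀ η : ι, (Iio η).Countable) :
    ∃ ρ : ι → ℕ → ℕ, (∀ η k, ρ η k ≤ k) ∧ ∀ ξ η, ξ < η → ∀ᶠ k in atTop, ρ ξ k < ρ η k := by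
  classical
  let Q : (η : ι) → ((ξ : ι) → ξ < η → ℕ → ℕ) → (ℕ → ℕ) → Prop := fun η ih g =>
    Gd g ∧ (∀ k, g k ≤ k) ∧ ∀ ξ (hξ : ξ < η), ∀ᶠ k in atTop, ih ξ hξ k < g k
  let F : (η : ι) → ((ξ : ι) → ξ < η → ℕ → ℕ) → (ℕ → ℕ) := fun η ih =>
    if h : ∃ g, Q η ih g then h.choose else 0
  let ρ : ι → ℕ → ℕ := wellFounded_lt.fix F
  have hρ : ∀ η, ρ η = F η (fun ξ _ => ρ ξ) := fun η => wellFounded_lt.fix_eq F η
  have key : ∀ η, Q η (fun ξ _ => ρ ξ) (ρ η) := by
    intro η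
    induction η using WellFoundedLT.induction with
    | _ η ih =>
      have hex : ∃ g, Q η (fun ξ _ => ρ ξ) g := by
        rcases (Iio η).eq_empty_or_nonempty with he | hne
        · refine ⟨fun _ => 0, fun m => ?_, fun k => Nat.zero_le _, fun ξ hξ => ?_⟩
          · filter_upwards [eventually_ge_atTop m] with k hk
            omega
          · exact absurd (show ξ ∈ Iio η from hξ) (by rw [he]; exact notMem_empty _)
        · obtain ⟨s, hs⟩ := (hc η).exists_eq_range hne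
          have hsm : ∀ i, s i < η := fun i => by
            have : s i ∈ Iio η := by rw [hs]; exact ⟨i, rfl⟩
            exact this
          obtain ⟨g, hg1, hg2, hg3⟩ := step_rho (fun i => ρ (s i)) (fun i => (ih _ (hsm i)).1)
          refine ⟨g, hg1, hg2, fun ξ hξ => ?_⟩
          have : ξ ∈ range s := by rw [← hs]; exact hξ
          obtain ⟨i, rfl⟩ := this
          exact hg3 i
      have : ρ η = hex.choose := by
        rw [hρ η]
        exact dif_pos hex
      rw [this]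
      exact hex.choose_spec
  exact ⟨ρ, fun η => (key η).2.1, fun ξ η h => (key η).2.2 ξ h⟩

/-! ### the codes -/

/-- bounds -/
def Bd (k : ℕ) : ℕ → ℕ
  | 0 => 2
  | r + 1 => 4 * Bd k r ^ (k + 2) + 1

theorem two_le_Bd (k r : ℕ) : 2 ≤ Bd k r := by
  induction r with
  | zero => exact le_rfl
  | succ r ih =>
    have : 1 ≤ Bd k r ^ (k + 2) := Nat.one_le_pow _ _ (by omega)
    simp only [Bd]
    omega

theorem Bd_lt_succ (k r : ℕ) : Bd k r < Bd k (r + 1) := by
  have h : Bd k r ≤ Bd k r ^ (k + 2) := Nat.le_self_pow (by omega) _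
  simp only [Bd]
  omega

theorem Bd_mono (k : ℕ) : Monotone (Bd k) := monotone_nat_of_le_succ fun r => (Bd_lt_succ k r).le

open Classical in
/-- the `k`-th codes -/
noncomputable def A (e : ι → ι → ℕ) (ρ : ι → ℕ → ℕ) (k : ℕ) : ι → ℕ :=
  wellFounded_lt.fix (fun η ih => 4 * Bd k (ρ η k) * (1 + Nat.ofDigits (Bd k (ρ η k))
    ((List.range (k + 1)).map fun i =>
      if h : ∃ ξ, ξ < η ∧ e η ξ = i ∧ ρ ξ k < ρ η k then ih h.choose h.choose_spec.1 else 0)))

open Classical in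
/-- the digits -/
noncomputable def dg (e : ι → ι → ℕ) (ρ : ι → ℕ → ℕ) (k : ℕ) (η : ι) (i : ℕ) : ℕ :=
  if h : ∃ ξ, ξ < η ∧ e η ξ = i ∧ ρ ξ k < ρ η k then A e ρ k h.choose else 0

theorem A_eq (e : ι → ι → ℕ) (ρ : ι → ℕ → ℕ) (k : ℕ) (η : ι) :
    A e ρ k η = 4 * Bd k (ρ η k) * (1 + Nat.ofDigits (Bd k (ρ η k))
      ((List.range (k + 1)).map (dg e ρ k η))) := by
  unfold A
  rw [wellFounded_lt.fix_eq]
  rfl

theorem dg_eq {e : ι → ι → ℕ} (he : ∀ η, InjOn (e η) (Iio η)) (ρ : ι → ℕ → ℕ) (k : ℕ) {ξ η : ι}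
    (h : ξ < η) (hρ : ρ ξ k < ρ η k) : dg e ρ k η (e η ξ) = A e ρ k ξ := by
  have hex : ∃ ξ', ξ' < η ∧ e η ξ' = e η ξ ∧ ρ ξ' k < ρ η k := ⟨ξ, h, rfl, hρ⟩
  have h1 : hex.choose = ξ := he η hex.choose_spec.1 h hex.choose_spec.2.1
  unfold dg
  rw [dif_pos hex, h1]

theorem A_bounds (e : ι → ι → ℕ) (ρ : ι → ℕ → ℕ) (k : ℕ) (η : ι) :
    (∀ i, dg e ρ k η i < Bd k (ρ η k)) ∧ 4 * Bd k (ρ η k) ≤ A e ρ k η ∧
      A e ρ k η < Bd k (ρ η k + 1) := by
  induction η using WellFoundedLT.induction with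
  | _ η ih =>
    have hd : ∀ i, dg e ρ k η i < Bd k (ρ η k) := by
      intro i
      unfold dg
      split_ifs with h
      · exact ((ih _ h.choose_spec.1).2.2).trans_le (Bd_mono k h.choose_spec.2.2)
      · have := two_le_Bd k (ρ η k)
        omega
    have hB := two_le_Bd k (ρ η k)
    have hof : Nat.ofDigits (Bd k (ρ η k)) ((List.range (k + 1)).map (dg e ρ k η)) <
        Bd k (ρ η k) ^ (k + 1) := by
      have := Nat.ofDigits_lt_base_pow_length (b := Bd k (ρ η k))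
        (l := (List.range (k + 1)).map (dg e ρ k η)) (by omega) (by
          intro x hx
          obtain ⟨i, _, rfl⟩ := List.mem_map.1 hx
          exact hd i)
      simpa using this
    refine ⟨hd, ?_, ?_⟩
    · rw [A_eq]
      exact Nat.le_mul_of_pos_right _ (by omega)
    · rw [A_eq]
      have h1 : 4 * Bd k (ρ η k) * (1 + Nat.ofDigits (Bd k (ρ η k))
          ((List.range (k + 1)).map (dg e ρ k η))) ≤ 4 * Bd k (ρ η k) * Bd k (ρ η k) ^ (k + 1) :=
        Nat.mul_le_mul_left _ (by omega)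
      have h2 : 4 * Bd k (ρ η k) * Bd k (ρ η k) ^ (k + 1) = 4 * Bd k (ρ η k) ^ (k + 2) := by
        rw [pow_succ (Bd k (ρ η k)) (k + 1)]; ring
      simp only [Bd]
      omega

/-- comparison of the codes of `η`, `η'` with the codes of coded points `ξ`, `ξ'` -/
theorem A_compare {e : ι → ι → ℕ} (he : ∀ η, InjOn (e η) (Iio η)) (ρ : ι → ℕ → ℕ) (k : ℕ)
    {ξ η ξ' η' : ι} (h : ξ < η) (h' : ξ' < η') (hρ : ρ ξ k < ρ η k) (hρ' : ρ ξ' k < ρ η' k)
    (hn : e η ξ = e η' ξ') (hk : e η ξ ≤ k) :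
    (A e ρ k η = A e ρ k η' → A e ρ k ξ = A e ρ k ξ') ∧
    (A e ρ k η ≠ A e ρ k η' →
      3 * (|(A e ρ k ξ : ℤ) - A e ρ k ξ'| + 1) ≤ |(A e ρ k η : ℤ) - A e ρ k η'|) := by
  obtain ⟨hd, hl, hu⟩ := A_bounds e ρ k η
  obtain ⟨hd', hl', hu'⟩ := A_bounds e ρ k η'
  have hξ : A e ρ k ξ < Bd k (ρ η k) := ((A_bounds e ρ k ξ).2.2).trans_le (Bd_mono k hρ)
  have hξ' : A e ρ k ξ' < Bd k (ρ η' k) := ((A_bounds e ρ k ξ').2.2).trans_le (Bd_mono k hρ')
  have hB := two_le_Bd k (ρ η k)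
  have hB' := two_le_Bd k (ρ η' k)
  constructor
  · intro heq
    have hρeq : ρ η k = ρ η' k := by
      rcases lt_trichotomy (ρ η k) (ρ η' k) with h1 | h1 | h1
      · have h2 : Bd k (ρ η k + 1) ≤ Bd k (ρ η' k) := Bd_mono k h1
        omega
      · exact h1
      · have h2 : Bd k (ρ η' k + 1) ≤ Bd k (ρ η k) := Bd_mono k h1
        omega
    rw [A_eq e ρ k η, A_eq e ρ k η', ← hρeq] at heq
    have h1 := Nat.eq_of_mul_eq_mul_left (by omega) heq
    have h2 := Nat.ofDigits_inj_of_len_eq (b := Bd k (ρ η k)) (by omega)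
      (L1 := (List.range (k + 1)).map (dg e ρ k η))
      (L2 := (List.range (k + 1)).map (dg e ρ k η')) (by simp)
      (by
        intro x hx
        obtain ⟨i, _, rfl⟩ := List.mem_map.1 hx
        exact hd i)
      (by
        intro x hx
        obtain ⟨i, _, rfl⟩ := List.mem_map.1 hx
        rw [hρeq]; exact hd' i) (by omega)
    have h3 := List.map_inj_left.1 h2 (e η ξ) (List.mem_range.2 (Nat.lt_succ_of_le hk))
    rw [dg_eq he ρ k h hρ, hn, dg_eq he ρ k h' hρ'] at h3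
    exact h3
  · intro hne
    -- the difference of the coded points
    have hdiff : ∀ B : ℕ, A e ρ k ξ < B → A e ρ k ξ' < B →
        |(A e ρ k ξ : ℤ) - A e ρ k ξ'| + 1 ≤ B := by
      intro B h1 h2
      have : |(A e ρ k ξ : ℤ) - A e ρ k ξ'| ≤ B - 1 := by
        rw [abs_le]
        constructor <;> omega
      omega
    rcases lt_trichotomy (ρ η k) (ρ η' k) with h1 | h1 | h1
    · have h2 : Bd k (ρ η k + 1) ≤ Bd k (ρ η' k) := Bd_mono k h1
      have h3 := hdiff (Bd k (ρ η' k)) (hξ.trans_le (Bd_mono k h1.le)) hξ'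
      have h4 : (3 * Bd k (ρ η' k) : ℤ) ≤ |(A e ρ k η : ℤ) - A e ρ k η'| := by
        rw [abs_sub_comm]
        refine le_trans ?_ (le_abs_self _)
        omega
      linarith
    · -- both are multiples of `4 * Bd`
      have h3 := hdiff (Bd k (ρ η k)) hξ (by rw [h1]; exact hξ')
      have e1 := A_eq e ρ k η
      have e2 := A_eq e ρ k η'
      rw [← h1] at e2
      set u := 1 + Nat.ofDigits (Bd k (ρ η k)) ((List.range (k + 1)).map (dg e ρ k η))
      set v := 1 + Nat.ofDigits (Bd k (ρ η k)) ((List.range (k + 1)).map (dg e ρ k η'))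
      have huv : u ≠ v := by
        intro h
        apply hne
        rw [e1, e2, h]
      have h4 : (4 * Bd k (ρ η k) : ℤ) ≤ |(A e ρ k η : ℤ) - A e ρ k η'| := by
        have h5 : (A e ρ k η : ℤ) - A e ρ k η' = (4 * Bd k (ρ η k) : ℤ) * ((u : ℤ) - v) := by
          rw [e1, e2]; push_cast; ring
        rw [h5, abs_mul]
        have h6 : (1 : ℤ) ≤ |(u : ℤ) - v| := by
          apply Int.one_le_abs
          intro h
          apply huv
          omega
        have h7 : |(4 * Bd k (ρ η k) : ℤ)| = 4 * Bd k (ρ η k) := by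
          apply abs_of_nonneg; positivity
        rw [h7]
        nlinarith [show (0 : ℤ) ≤ 4 * (Bd k (ρ η k) : ℤ) by positivity]
      have h8 : (2 : ℤ) ≤ Bd k (ρ η k) := by exact_mod_cast hB
      linarith
    · have h2 : Bd k (ρ η' k + 1) ≤ Bd k (ρ η k) := Bd_mono k h1
      have h3 := hdiff (Bd k (ρ η k)) hξ (hξ'.trans_le (Bd_mono k h1.le))
      have h4 : (3 * Bd k (ρ η k) : ℤ) ≤ |(A e ρ k η : ℤ) - A e ρ k η'| := by
        refine le_trans ?_ (le_abs_self _)
        omega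
      linarith

end Pool.Agent.R591.PL
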